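import Pool.Agent.N875.X15.Ap
import Pool.Agent.N875.X15.ApE
import Pool.Agent.N974.Gen.ChP

/-!
# The coefficients `a_p` of all the twists of `X_0(15)`
-/

set_option autoImplicit false
set_option linter.style.haveILetI false

open scoped Classical

namespace Pool.Agent.N875.S15

open Pool.Agent.W97.MT (affCount ap)
open Pool.Agent.N974.MF (E15)
open Pool.Agent.N875.X15 (WN Em ap_E15 ap_dvd ap_ndvd ap_two recip ap_Em_dvd ap_Em_ndvd ap_Em_two)

theorem jac_zero {p n : ℕ} (hp : p.Prime) (hn : n ≠ 0) (h : p ∣ n) : jacobiSym p n = 0 := by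
  rw [jacobiSym.eq_zero_iff]
  refine ⟨hn, ?_⟩
  intro h1
  have h3 : Nat.gcd p n = 1 := by
    have : Int.gcd ((p : ℕ) : ℤ) n = Nat.gcd p n := by simp
    rw [← this]; exact h1
  have h5 : p ∣ Nat.gcd p n := Nat.dvd_gcd dvd_rfl h
  rw [h3] at h5
  exact hp.one_lt.ne' (Nat.dvd_one.1 h5)

/-- **The coefficients of the twist by `m = 1 mod 4`.** -/
theorem ap_WN {m : ℤ} (h4 : m % 4 = 1) (p : ℕ) (hp : p.Prime) :
    ap (WN m) p = ap E15 p * jacobiSym p m.natAbs := by
  have : Fact p.Prime := ⟨hp⟩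
  have hn0 : m.natAbs ≠ 0 := by omega
  rw [ap_E15]
  rcases hp.eq_two_or_odd' with h2 | h2
  · subst h2
    have hodd : Odd m.natAbs := Nat.odd_iff.2 (by omega)
    have e2 : jacobiSym ((2 : ℕ) : ℤ) m.natAbs = jacobiSym 2 m.natAbs := by norm_num
    rw [ap_two h4, ap_two (by norm_num), e2, jacobiSym.at_two hodd, ZMod.χ₈_nat_eq_if_mod_eight]
    have h3 : m.natAbs % 2 = 1 := Nat.odd_iff.1 hodd
    by_cases h8 : m % 8 = 1
    · rw [if_pos h8, if_pos (by norm_num), if_neg (show ¬ m.natAbs % 2 = 0 by omega),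
        if_pos (show m.natAbs % 8 = 1 ∨ m.natAbs % 8 = 7 by omega)]
      norm_num
    · rw [if_neg h8, if_pos (by norm_num), if_neg (show ¬ m.natAbs % 2 = 0 by omega),
        if_neg (show ¬ (m.natAbs % 8 = 1 ∨ m.natAbs % 8 = 7) by omega)]
      norm_num
  · have hp2 : p ≠ 2 := by rintro rfl; exact absurd h2 (by decide)
    by_cases hd : (p : ℤ) ∣ m
    · rw [ap_dvd h4 p hp2 hd, jac_zero hp hn0 (Int.natCast_dvd.1 hd), mul_zero]
    · rw [ap_ndvd h4 p hp2 hd, recip h4 h2, mul_comm]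

/-- **The coefficients of the twist by `m ≢ 1 mod 4`**, odd primes. -/
theorem ap_Em {m : ℤ} (p : ℕ) (hp : p.Prime) (hp2 : p ≠ 2) :
    ap (Em m) p = ap E15 p * jacobiSym m p := by
  have : Fact p.Prime := ⟨hp⟩
  by_cases hd : (p : ℤ) ∣ m
  · have h0 : jacobiSym m p = 0 := by
      rw [jacobiSym.eq_zero_iff]
      refine ⟨hp.ne_zero, ?_⟩
      have h1 : Int.gcd m p = p := by
        show Nat.gcd m.natAbs (p : ℤ).natAbs = p
        rw [Int.natAbs_natCast]
        exact Nat.gcd_eq_right (Int.natCast_dvd.1 hd)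
      rw [h1]
      exact hp.one_lt.ne'
    rw [ap_Em_dvd p hp2 hd, h0, mul_zero]
  · rw [ap_Em_ndvd p hp2 hd, mul_comm]

open Pool.Agent.N969.P15 (Ev chE) in
open Pool.Agent.N975.ChE in
/-- the coefficients of the twist by `-n`, `n = 4 m`, in terms of the character -/
theorem ap_En {n : ℕ} (hE : Ev n) (p : ℕ) (hp : p.Prime) :
    ap (Em (-((n / 4 : ℕ) : ℤ))) p = ap E15 p * chE n p := by
  have hn := ev_mod hE
  by_cases hp2 : p = 2
  · subst hp2
    rw [ap_Em_two, chE_zero hn (by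
      intro h
      have h2 : 2 ∣ n := by omega
      have := Nat.eq_one_of_dvd_coprimes h dvd_rfl h2
      norm_num at this), mul_zero]
  · rw [ap_Em p hp hp2, chE_prime hE hp hp2]

open Pool.Agent.N974.Gen.ChP in
/-- the coefficients of the twist by `n`, `n = 4 m`, in terms of the character -/
theorem ap_Ep {n : ℕ} (hE : Pool.Agent.N974.Gen.ChP.Ev n) (p : ℕ) (hp : p.Prime) :
    ap (Em ((n / 4 : ℕ) : ℤ)) p = ap E15 p * Pool.Agent.N974.Gen.ChP.chE n p := by
  have hn := ev_mod hE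
  by_cases hp2 : p = 2
  · subst hp2
    rw [ap_Em_two, Pool.Agent.N974.Gen.ChP.chE_zero hn (by
      intro h
      have h2 : 2 ∣ n := by omega
      have := Nat.eq_one_of_dvd_coprimes h dvd_rfl h2
      norm_num at this), mul_zero]
  · rw [ap_Em p hp hp2, Pool.Agent.N974.Gen.ChP.chE_prime hE hp hp2]

end Pool.Agent.N875.S15
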