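import Pool.Agent.N875.D15.Fin

/-!
# Level 15: the criterion for `m = ± 1`, and the 2-Selmer group of `X_0(15)`
-/

set_option autoImplicit false

open Finset

namespace Pool.Agent.N875.S15

open Pool.Agent.N875.X15
open Pool.Agent.N875.P17 (Lm al ind two_zmod zmod_cases)
open Pool.Agent.TH841.SH (SelG)
open Pool.Agent.N809.PQ (B3 B5 Sol15 Sg15)
open Pool.Agent.N875.D15

theorem not_sg_one : ¬ Sg15 1 := by
  intro h
  have hP : ∀ p ∈ PR 1, False := by
    intro p hp
    rw [PR_one] at hp
    exact absurd hp (Finset.notMem_empty p)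
  have key := h (fun _ => 0) (fun _ => 0) 0 0 1 ⟨fun _ => rfl, fun _ => rfl,
    fun h => absurd (by unfold B5; norm_num) h, fun p hp => (hP p hp).elim,
    fun p hp => (hP p hp).elim, fun _ => by rw [PR_one]; simp, fun h3 => by
      exfalso
      unfold B3 at h3
      norm_num at h3, fun _ => by rw [PR_one]; simp⟩
  exact absurd key.2.1 (by decide)

theorem not_sg_neg_one : ¬ Sg15 (-1) := by
  intro h
  have hsq : Squarefree (-1 : ℤ) := fun x hx => squarefree_one x (by rwa [dvd_neg] at hx)
  have hL : Lm (-1) 2 2 = 0 := by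
    unfold Lm
    rw [if_pos rfl, PR_neg_one]
    simp
  have hps : ps (-1) 2 = -1 := by
    have h4 := prod_PR hsq
    rwa [PR_neg_one, Finset.prod_singleton] at h4
  have h5 : ra 5 (-1) = 0 := by
    unfold ra
    rw [ch_odd (by norm_num), if_pos (by norm_num)]
  have hP : ∀ p ∈ PR (-1), p = 2 := by
    intro p hp
    rw [PR_neg_one] at hp
    exact Finset.mem_singleton.1 hp
  have key := h (fun _ => 1) (fun _ => 0) 0 1 1 ⟨fun _ => rfl,
    fun h => absurd (by unfold B3; norm_num) h, fun h => absurd (by unfold B5; norm_num) h,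
    fun p hp => by
      rw [hP p hp, PR_neg_one, Finset.sum_singleton, hL, ra2_m3, ra2_5]
      decide, fun q hq => by
      rw [hP q hq, PR_neg_one, Finset.sum_singleton, hL, hps, h5, zero_mul, zero_mul, mul_zero,
        add_zero, add_zero], fun h0 => absurd h0 (by norm_num), fun _ => by
      rw [PR_neg_one, Finset.sum_singleton, ra2_m3]
      decide, fun _ => by
      rw [PR_neg_one, Finset.sum_singleton, Finset.sum_singleton, ra2_5]
      decide⟩
  exact absurd key.1 (by decide)

/-- the 2-Selmer group of the curve itself -/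
theorem sel_one {d1 d2 : ℤ} (h : (d1, d2) ∈ SelG (-9) 16 0) :
    (d1, d2) ∈ ({(1, 1), (1, -1), (5, 5), (5, -5)} : Set (ℤ × ℤ)) := by
  obtain ⟨a, s, c, X, Y, RU, RV, sol⟩ := sol_of_sel squarefree_one (by simpa using h)
  have ha : a = 0 := sol.a0 (by unfold B3; norm_num)
  have hX : X = ∅ := by
    have := RV.sub
    rwa [PR_one, Finset.subset_empty] at this
  have hY : Y = ∅ := by
    have := RU.sub
    rwa [PR_one, Finset.subset_empty] at this
  have e1 := RU.eq
  have e2 := RV.eq
  rw [hY, Finset.prod_empty, ha] at e1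
  rw [hX, Finset.prod_empty] at e2
  rw [e1, e2]
  rcases zmod_cases s with rfl | rfl <;> rcases zmod_cases c with rfl | rfl <;>
    simp [tt, TT]

end Pool.Agent.N875.S15
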