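import Pool.Agent.N875.S15.Cy
import Pool.Agent.N871.S15.NisR

/-!
# The central values: negative discriminants, `3` inert and `5` split
-/

set_option autoImplicit false
set_option linter.style.haveILetI false

open scoped Classical

namespace Pool.Agent.N875.S15

open WeierstrassCurve
open Pool.Agent.Y700 (IsL tamProd Omega)
open Pool.Agent.N218.T15 (EE t3 t5)
open Pool.Agent.N218.T21 (Kd)
open Pool.Agent.N973.P15G (Ps Ng QQ Aii Aio Nis)
open Pool.Agent.N875.D15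
open Pool.Agent.N972.GC (CY CM)
open Pool.Agent.N969.P17G (chM)
open Pool.Agent.N871.S15 (relN_Nis)
open Pool.Agent.N971.PG (chM_odd chM_even)

theorem Kd_neg {n : ℕ} (hn : Ng n) : Kd (-(mQ n : ℤ)) = n := by
  rcases hn with ⟨h1, h2⟩ | hE
  · rw [mQ_odd (by omega), Kd_odd (by omega), Int.natAbs_neg, Int.natAbs_natCast]
  · obtain ⟨k, rfl, h1, h2⟩ := hE
    have e : 4 * k / 4 = k := by omega
    rw [mQ_even (by omega), e, Kd_even (by omega), Int.natAbs_neg, Int.natAbs_natCast]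

theorem four_lt {n : ℕ} (h : Nis n) (hn : n ≠ 4) : 4 < n := by
  obtain ⟨hn', h3, h5⟩ := h
  rcases hn' with ⟨h1, h2⟩ | ⟨k, rfl, h1, h2⟩
  · have h4 : n ≠ 3 := by rintro rfl; omega
    omega
  · have : k ≠ 0 := h1.ne_zero
    omega

/-- **`3` inert, `5` split** -/
theorem cm_nis {n : ℕ} (h : Nis n) (hn : n ≠ 4) : Cc (EE (-(mQ n : ℤ))) (CM (-3) 5 n) := by
  have b3 := (B3_neg h.1).2 h.2.1
  have b5 := (B5_neg h.1).2 h.2.2
  have b3' : (-(mQ n : ℤ)) % 3 = 2 := b3
  have b5' : (-(mQ n : ℤ)) % 5 = 1 ∨ (-(mQ n : ℤ)) % 5 = 4 := b5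
  have a3 : t3 (-(mQ n : ℤ)) = 4 := by
    unfold t3
    rw [if_neg (by omega), if_pos b3']
  have a5 : t5 (-(mQ n : ℤ)) = 4 := by
    unfold t5
    rw [if_neg (by omega), if_pos b5']
  have hT : TT (-(mQ n : ℤ)) = 4 ^ n.primeFactors.card * 16 := by
    unfold TT
    rw [a3, a5, Kd_neg h.1]
  have h4 := four_lt h hn
  rcases id h.1 with ⟨h1, h2⟩ | hE
  · have ho : ¬ 2 ∣ n := by omega
    exact cc_ng h.1 hn hT (fun _ => relN_Nis h h4 fun u => (chM_odd h1 h2 u).symm)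
      (fun h2 => absurd h2 ho)
  · have he : 2 ∣ n := by
      obtain ⟨k, rfl, -⟩ := hE
      omega
    exact cc_ng h.1 hn hT (fun h2 => absurd he h2)
      (fun _ => relN_Nis h h4 fun u => (chM_even hE u).symm)

end Pool.Agent.N875.S15
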