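import Pool.Agent.N875.S15.Van
import Pool.Agent.N875.S15.Cm

/-!
# The assembly: the 2-part of the value at the central point for all the twists of `X_0(15)`
-/

set_option autoImplicit false
set_option linter.style.haveILetI false

open scoped Classical

namespace Pool.Agent.N875.S15

open WeierstrassCurve
open Pool.Agent.N875.X15 (WN Em EQm WNQ Fin2)
open Pool.Agent.Y700 (IsL tamProd Omega)
open Pool.Agent.N218.T15 (EE)
open Pool.Agent.N809.PQ (B3 B5 Sg15 w15 sg15_parity)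
open Pool.Agent.N972.GC (CY CM)
open Pool.Agent.N969.RQ (Fd R15 R15r)
open Pool.Agent.N973.P15G (Ps Ng QQ Aii Aio Nis)
open Pool.Agent.N875.D15

theorem w15_cases (m : ℤ) : w15 m = 1 ∨ w15 m = -1 := by
  unfold w15
  split_ifs <;> norm_num

/-- **the central values** -/
theorem cc_all {m : ℤ} (hs : Squarefree m) (h1 : m ≠ 1) (h2 : m ≠ -1) :
    Cc (EE m) (Sg15 m) := by
  rcases w15_cases m with hw | hw
  swap
  · refine Cc.zero (van hs hw) fun hS => ?_
    rw [sg15_parity hs h1 h2 hS] at hw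
    norm_num at hw
  have hm0 := hs.ne_zero
  unfold w15 at hw
  rcases lt_or_gt_of_ne hm0 with hneg | hpos
  · obtain ⟨n, hn, rfl⟩ := exists_Ng hs hneg
    have h1n : mQ n ≠ 1 := by
      intro h
      rw [h] at h2
      exact h2 rfl
    have hn4 : n ≠ 4 := by
      rintro rfl
      exact h1n rfl
    rw [if_pos hneg] at hw
    have e3 := B3_neg hn
    have e5 := B5_neg hn
    by_cases h3 : B3 (-(mQ n : ℤ))
    · have h5 : B5 (-(mQ n : ℤ)) := by
        by_contra h5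
        rw [if_pos (id h3 : _ % (3 : ℤ) = 2),
          if_neg (id h5 : ¬ (_ % (5 : ℤ) = 1 ∨ _ % (5 : ℤ) = 4))] at hw
        norm_num at hw
      exact (cm_nis ⟨hn, e3.1 h3, e5.1 h5⟩ hn4).congr
        ⟨sg_of_cm hn hs h1n h3 h5, cm_of_sg hn h3 h5⟩
    · have h5 : ¬ B5 (-(mQ n : ℤ)) := by
        intro h5
        rw [if_neg (id h3 : ¬ _ % (3 : ℤ) = 2),
          if_pos (id h5 : _ % (5 : ℤ) = 1 ∨ _ % (5 : ℤ) = 4)] at hw
        norm_num at hw
      obtain ⟨c3, c5⟩ := cls_neg hn h3 h5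
      exact (cc_old hn c3 c5).congr ⟨sg_of_qq hn hs h3 h5, qq_of_sg hn h3 h5 hs⟩
  · obtain ⟨A, hA, rfl⟩ := exists_Ps hs (by omega)
    rw [if_neg (by omega)] at hw
    have e3 := B3_pos hA
    have e5 := B5_pos hA
    by_cases h3 : B3 (mQ A : ℤ)
    · have h5 : ¬ B5 (mQ A : ℤ) := by
        intro h5
        rw [if_pos (id h3 : _ % (3 : ℤ) = 2),
          if_pos (id h5 : _ % (5 : ℤ) = 1 ∨ _ % (5 : ℤ) = 4)] at hw
        norm_num at hw
      refine (cy3 (A := A) ?_).congr (sg_iff_cy hA hs (Or.inl ⟨rfl, h3, h5⟩)).symm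
      rw [e5] at h5
      rw [e3] at h3
      by_cases h50 : A % 5 = 0
      · exact Or.inr ⟨hA, h3, by omega⟩
      · exact Or.inl ⟨hA, h3, by omega⟩
    · have h5 : B5 (mQ A : ℤ) := by
        by_contra h5
        rw [if_neg (id h3 : ¬ _ % (3 : ℤ) = 2),
          if_neg (id h5 : ¬ (_ % (5 : ℤ) = 1 ∨ _ % (5 : ℤ) = 4))] at hw
        norm_num at hw
      refine (cy5 (A := A) ?_).congr (sg_iff_cy hA hs (Or.inr ⟨rfl, h3, h5⟩)).symm
      rw [e5] at h5
      rw [e3] at h3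
      by_cases h30 : A % 3 = 0
      · exact Or.inr ⟨Ps_Fd hA, by omega, (jac5 A).2 h5⟩
      · exact Or.inl ⟨Ps_Fd hA, by omega, (jac5 A).2 h5⟩

/-- **The 2-part for all the twists of `X_0(15)`.** -/
theorem strong15 {m : ℤ} (hs : Squarefree m) (h1 : m ≠ 1) (h2 : m ≠ -1) :
    Pool.Agent.W97.MT.IsGloballyMinimal (EE m) ∧ tamProd (EE m) = TT m ∧
    (∃ t : ℕ, Odd t ∧
      Nat.card (AddCommGroup.torsion ((EE m).map (Int.castRingHom ℚ)).toAffine.Point) = 4 * t) ∧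
    0 < Omega (EE m) ∧
    ∃ (f : ℂ → ℂ) (v : ℚ) (y : ℤ), IsL (EE m) f ∧ v ≠ 0 ∧ padicValRat 2 v = 0 ∧
      (Odd y ↔ Fin2 ((EE m).map (Int.castRingHom ℚ))) ∧
      f 1 = (((v : ℝ) * (y : ℝ) ^ 2 * (Omega (EE m) * tamProd (EE m) /
        (Nat.card (AddCommGroup.torsion ((EE m).map (Int.castRingHom ℚ)).toAffine.Point) : ℝ) ^ 2) :
          ℝ) : ℂ) := by
  have e : Sg15 m ↔ Fin2 ((EE m).map (Int.castRingHom ℚ)) := by
    rw [fin2_EE hs, fin2_iff_sg15 hs]
    exact ⟨Or.inl, fun h => h.resolve_right (by rintro (h | h); exacts [h1 h, h2 h])⟩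
  exact ⟨Pool.Agent.N218.T15.min_EE hs, Pool.Agent.N218.T15.tamProd_EE hs, tor_EE hs h1 h2,
    (cc_all hs h1 h2).congr e⟩

end Pool.Agent.N875.S15
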