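import Pool.Agent.N875.X15.Tors
import Pool.Agent.N875.D15.Crit

/-!
# The torsion subgroup of the twists of `X_0(15)` by the squarefree `m` different from `± 1`
-/

set_option autoImplicit false

namespace Pool.Agent.N875.S15

open WeierstrassCurve
open Pool.Agent.TH841.SH (IsR)
open Pool.Agent.N875.X15

open scoped Classical

variable {m : ℤ}

/-- there is no rational point of order four -/
theorem no_four (hm : m ≠ 0) (hns1 : ¬ IsSquare (m : ℚ)) (hns : ¬ IsSquare (-(m : ℚ)))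
    (P : (EQm m).toAffine.Point) (h : (P + P) + (P + P) = 0) : P + P = 0 := by
  by_contra hne
  have hR := isR m
  obtain ⟨e, he, hP2, hee⟩ := two_tor hR two_ne_zero h hne
  rcases P with _ | ⟨x, y, hxy⟩
  · exact hne (add_zero _)
  have hy : y ≠ 0 := by
    rintro rfl
    exact hne (dbl_T hR hxy)
  have k1 := dbl_sq hR two_ne_zero hxy hy he hP2
  have k2 := dbl_sq hR.rot two_ne_zero hxy hy he hP2
  rcases hee with rfl | rfl | rfl
  · apply hns1
    have e1 : (((0 : ℤ)) : ℚ) - ((-9 * m : ℤ) : ℚ) = 3 * 3 * (m : ℚ) := by push_cast; ring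
    rw [e1] at k2
    exact sq_cancel (by norm_num : (3 * 3 : ℚ) ≠ 0) ⟨3, rfl⟩ k2
  · apply hns
    have e1 : ((-9 * m : ℤ) : ℚ) - ((0 : ℤ) : ℚ) = 3 * 3 * -(m : ℚ) := by push_cast; ring
    rw [e1] at k1
    exact sq_cancel (by norm_num : (3 * 3 : ℚ) ≠ 0) ⟨3, rfl⟩ k1
  · apply hns1
    have e1 : (((16 * m : ℤ)) : ℚ) - ((0 : ℤ) : ℚ) = 4 * 4 * (m : ℚ) := by push_cast; ring
    rw [e1] at k1
    exact sq_cancel (by norm_num : (4 * 4 : ℚ) ≠ 0) ⟨4, rfl⟩ k1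

/-- **The order of the torsion subgroup.** -/
theorem tors_Em' (hm : m ≠ 0) (hns1 : ¬ IsSquare (m : ℚ)) (hns : ¬ IsSquare (-(m : ℚ))) :
    ∃ t : ℕ, Odd t ∧ Nat.card (AddCommGroup.torsion (EQm m).toAffine.Point) = 4 * t := by
  have : Finite (AddCommGroup.torsion (EQm m).toAffine.Point) := finite_tors (fg_E hm)
  refine card_four ?_ ?_
  · have e : {x : AddCommGroup.torsion (EQm m).toAffine.Point // x + x = 0} ≃ (T4 hm : Finset _) :=
      { toFun := fun x => ⟨x.1.1, mem_T4 hm (congrArg Subtype.val x.2)⟩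
        invFun := fun x => ⟨⟨x.1, by
          have h1 : IsOfFinAddOrder x.1 := isOfFinAddOrder_iff_nsmul_eq_zero.2
            ⟨2, two_pos, by rw [two_nsmul]; exact T4_two hm _ x.2⟩
          exact h1⟩, Subtype.ext (T4_two hm _ x.2)⟩
        left_inv := fun x => rfl
        right_inv := fun x => rfl }
    rw [Nat.card_congr e, Nat.card_eq_fintype_card, Fintype.card_coe, T4_card]
  · rintro ⟨x, hx⟩ h
    apply Subtype.ext
    exact no_four hm hns1 hns x (congrArg Subtype.val h)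

lemma nsq_of (hs : Squarefree m) (h1 : m ≠ 1) : ¬ IsSquare (m : ℚ) :=
  fun h => h1 (Pool.Agent.N875.D15.sqf_int_square hs h)

lemma nsq_of' (hs : Squarefree m) (h2 : m ≠ -1) : ¬ IsSquare (-(m : ℚ)) := fun h => by
  have h3 : IsSquare ((-m : ℤ) : ℚ) := by
    push_cast
    exact h
  have h4 := Pool.Agent.N875.D15.sqf_int_square (n := -m)
    (fun x hx => hs x (by rwa [dvd_neg] at hx)) h3
  exact h2 (by omega)

theorem tors_Em (hs : Squarefree m) (h1 : m ≠ 1) (h2 : m ≠ -1) :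
    ∃ t : ℕ, Odd t ∧ Nat.card (AddCommGroup.torsion (EQm m).toAffine.Point) = 4 * t :=
  tors_Em' hs.ne_zero (nsq_of hs h1) (nsq_of' hs h2)

theorem tors_WN (h4 : m % 4 = 1) (hs : Squarefree m) (h1 : m ≠ 1) :
    ∃ t : ℕ, Odd t ∧ Nat.card (AddCommGroup.torsion (WNQ m).toAffine.Point) = 4 * t := by
  obtain ⟨t, ht, h⟩ := tors_Em hs h1 (by omega)
  refine ⟨t, ht, ?_⟩
  rw [← h]
  exact tors_congr ((vr h4 ℚ).equiv (WN_Δ_ne h4 ℚ))

/-! ### the invariants -/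

theorem c4_WN (h4 : m % 4 = 1) : (WN m).c₄ = 481 * m ^ 2 := by
  obtain ⟨k, rfl⟩ : ∃ k, m = 4 * k + 1 := ⟨m / 4, by omega⟩
  rw [WN_k]
  simp only [WeierstrassCurve.c₄, WeierstrassCurve.b₂, WeierstrassCurve.b₄]
  ring

theorem c6_WN (h4 : m % 4 = 1) : (WN m).c₆ = 4879 * m ^ 3 := by
  obtain ⟨k, rfl⟩ : ∃ k, m = 4 * k + 1 := ⟨m / 4, by omega⟩
  rw [WN_k]
  simp only [WeierstrassCurve.c₆, WeierstrassCurve.b₂, WeierstrassCurve.b₄, WeierstrassCurve.b₆]
  ring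

theorem dvd_Δ {W : WeierstrassCurve ℤ} {N : ℤ} (h : W.Δ = 15 ^ 4 * N ^ 6) {p : ℕ} (hp : p.Prime) :
    (p : ℤ) ∣ W.Δ ↔ p ∣ 15 ∨ (p : ℤ) ∣ N := by
  have hp' := Nat.prime_iff_prime_int.1 hp
  rw [h, hp'.dvd_mul]
  refine or_congr ?_ ?_
  · constructor
    · intro h1
      have := hp'.dvd_of_dvd_pow h1
      exact_mod_cast this
    · intro h1
      exact dvd_pow (by exact_mod_cast h1) (by norm_num)
  · exact ⟨fun h1 => hp'.dvd_of_dvd_pow h1, fun h1 => dvd_pow h1 (by norm_num)⟩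

theorem WN_Δ' (h4 : m % 4 = 1) : (WN m).Δ = 15 ^ 4 * m ^ 6 := by
  rw [WN_Δ h4]
  ring

theorem Em_Δ' (m : ℤ) : (Em m).Δ = 15 ^ 4 * (4 * m) ^ 6 := by
  simp only [Em, WeierstrassCurve.Δ, WeierstrassCurve.b₂, WeierstrassCurve.b₄,
    WeierstrassCurve.b₆, WeierstrassCurve.b₈]
  ring

end Pool.Agent.N875.S15
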