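import Pool.Agent.N974.T15.Ex5
import Pool.Agent.N871.S15.OneV
import Pool.Agent.N871.S15.OneT

/-!
# All the twists of `X_0(15)`, with exact values
-/

set_option autoImplicit false
set_option linter.style.haveILetI false

open scoped Classical

namespace Pool.Agent.N875.S15

open WeierstrassCurve
open Pool.Agent.N875.X15 (Fin2)
open Pool.Agent.Y700 (IsL tamProd Omega)
open Pool.Agent.N218.T15 (EE min_EE tamProd_EE)

/-- the order of the torsion subgroup of the twist by `m` -/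
def tr (m : ℤ) : ℕ := if m = 1 ∨ m = -1 then 8 else 4

/-- **All the twists of `X_0(15)`.** -/
theorem strong {m : ℤ} (hs : Squarefree m) :
    Pool.Agent.W97.MT.IsGloballyMinimal (EE m) ∧ tamProd (EE m) = TT m ∧
    Nat.card (AddCommGroup.torsion ((EE m).map (Int.castRingHom ℚ)).toAffine.Point) = tr m ∧
    0 < Omega (EE m) ∧
    ∃ (f : ℂ → ℂ) (y : ℤ), IsL (EE m) f ∧ (Odd y ↔ Fin2 ((EE m).map (Int.castRingHom ℚ))) ∧
      f 1 = (((y : ℝ) ^ 2 * (Omega (EE m) * tamProd (EE m) / (tr m : ℝ) ^ 2) : ℝ) : ℂ) := by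
  refine ⟨min_EE hs, tamProd_EE hs, ?_⟩
  by_cases h1 : m = 1
  · subst h1
    obtain ⟨h2, f, hf, hv⟩ := Pool.Agent.N871.S15.exact_one
    refine ⟨?_, h2, f, 1, hf, ⟨fun _ => Pool.Agent.N871.S15.fin2_one, fun _ => by decide⟩, ?_⟩
    · rw [Pool.Agent.N871.S15.tors_EE_one]
      rfl
    · rw [hv]
      unfold tr
      rw [if_pos (Or.inl rfl)]
      push_cast
      ring
  by_cases h2 : m = -1
  · subst h2
    obtain ⟨h2, f, hf, hv⟩ := Pool.Agent.N871.S15.exact_neg_one
    refine ⟨?_, h2, f, 1, hf, ⟨fun _ => Pool.Agent.N871.S15.fin2_neg_one, fun _ => by decide⟩, ?_⟩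
    · rw [Pool.Agent.N871.S15.tors_EE_neg_one]
      rfl
    · rw [hv]
      unfold tr
      rw [if_pos (Or.inr rfl)]
      push_cast
      ring
  have e : tr m = 4 := if_neg (by tauto)
  obtain ⟨h3, f, y, hf, hy, hv⟩ := Pool.Agent.N974.T15.exact15 hs h1 h2
  refine ⟨by rw [e]; exact Pool.Agent.N871.S15.tors_EE hs h1 h2, h3, f, y, hf, hy, ?_⟩
  rw [hv, e]
  norm_num

end Pool.Agent.N875.S15
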