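import Pool.Agent.N875.S15.Old
import Pool.Agent.N871.S15.ChrE

/-!
# The vanishing: the twists of `X_0(15)` with root number `-1`
-/

set_option autoImplicit false
set_option linter.style.haveILetI false

open scoped Classical

namespace Pool.Agent.N875.S15

open Pool.Agent.Y700 (IsL tamProd Omega)
open Pool.Agent.N218.T15 (EE)
open Pool.Agent.N809.PQ (w15)
open Pool.Agent.N871.S15 (Rm)

theorem jac3' (m : ℤ) (h : ¬ (3 : ℤ) ∣ m) : jacobiSym m 3 = if m % 3 = 2 then -1 else 1 := by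
  rw [jacobiSym.mod_left]
  have h1 : m % 3 = 1 ∨ m % 3 = 2 := by omega
  rcases h1 with h1 | h1
  · rw [if_neg (by omega)]
    push_cast
    rw [h1]
    norm_num
  · rw [if_pos h1]
    push_cast
    rw [h1]
    norm_num

theorem jac5' (m : ℤ) (h : ¬ (5 : ℤ) ∣ m) :
    jacobiSym m 5 = if m % 5 = 1 ∨ m % 5 = 4 then 1 else -1 := by
  rw [jacobiSym.mod_left]
  have h1 : m % 5 = 1 ∨ m % 5 = 2 ∨ m % 5 = 3 ∨ m % 5 = 4 := by omega
  rcases h1 with h1 | h1 | h1 | h1
  · rw [if_pos (Or.inl h1)]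
    push_cast
    rw [h1]
    norm_num
  · rw [if_neg (by omega)]
    push_cast
    rw [h1]
    norm_num
  · rw [if_neg (by omega)]
    push_cast
    rw [h1]
    norm_num
  · rw [if_pos (Or.inr h1)]
    push_cast
    rw [h1]
    norm_num

theorem rm_of_w15 {m : ℤ} (hm : m ≠ 0) (h : w15 m = -1) : Rm m := by
  unfold Rm
  unfold w15 at h
  have e1 : (if 0 < m then (1 : ℤ) else -1) = if m < 0 then -1 else 1 := by
    rcases lt_or_gt_of_ne hm with h1 | h1
    · rw [if_neg (by omega), if_pos h1]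
    · rw [if_pos h1, if_neg (by omega)]
  have e3 : (if (3 : ℤ) ∣ m then 1 else jacobiSym m 3) = if m % 3 = 2 then -1 else 1 := by
    by_cases h3 : (3 : ℤ) ∣ m
    · rw [if_pos h3, if_neg (by omega)]
    · rw [if_neg h3, jac3' m h3]
  have e5 : (if (5 : ℤ) ∣ m then -1 else jacobiSym m 5) =
      if m % 5 = 1 ∨ m % 5 = 4 then 1 else -1 := by
    by_cases h5 : (5 : ℤ) ∣ m
    · rw [if_pos h5, if_neg (by omega)]
    · rw [if_neg h5, jac5' m h5]
  rw [e1, e3, e5, ← mul_assoc]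
  exact h

/-- **the vanishing** -/
theorem van {m : ℤ} (hs : Squarefree m) (hw : w15 m = -1) :
    0 < Omega (EE m) ∧ ∃ f : ℂ → ℂ, IsL (EE m) f ∧ f 1 = 0 :=
  Pool.Agent.N871.S15.vanish hs (rm_of_w15 hs.ne_zero hw)

end Pool.Agent.N875.S15
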