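import Pool.Agent.N875.S15.Old
import Pool.Agent.N974.T15.Neg
import Pool.Agent.N974.T15.Val

/-!
# The central values: positive discriminants with root number `+1`
-/

set_option autoImplicit false
set_option linter.style.haveILetI false

open scoped Classical

namespace Pool.Agent.N875.S15

open WeierstrassCurve
open Pool.Agent.Y700 (IsL tamProd Omega)
open Pool.Agent.N218.T15 (EE t3 t5)
open Pool.Agent.N218.T21 (Kd)
open Pool.Agent.N973.P15G (Ps Ng QQ Aii Aio Nis)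
open Pool.Agent.N875.D15 (mQ mQ_odd mQ_even Ps_Fd Ps_mod3 Ps_mod5 jac5)
open Pool.Agent.N969.RQ (Fd R15 R15r)
open Pool.Agent.N972.GC (CY CM)
open Pool.Agent.N974.T15 (Concl RelP posO posE relP_ii relP_io relP_R15 relP_R15r)

theorem Kd_mQ {A : ℕ} (hA : Ps A) : Kd (mQ A : ℤ) = A := by
  rcases hA with ⟨h1, h2, h3⟩ | ⟨k, rfl, h1, h2⟩
  · rw [mQ_odd (by omega), Kd_odd (by omega), Int.natAbs_natCast]
  · have e : 4 * k / 4 = k := by omega
    rw [mQ_even (by omega), e, Kd_even (by omega), Int.natAbs_natCast]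

theorem cc_ps {A : ℕ} (hA : Ps A) {T : ℕ} (hT : TT (mQ A : ℤ) = T) {Q : Prop}
    (hR : RelP A T Q) : Cc (EE (mQ A : ℤ)) Q := by
  have hF := Ps_Fd hA
  rcases hA with ⟨h1, h2, h3⟩ | ⟨k, rfl, h1, h2⟩
  · rw [mQ_odd (by omega)] at hT ⊢
    have P := pk_pO h1 h2 h3
    rw [hT] at P
    exact posO h1 h2 h3 _ P.c4 (by rw [P.c6, one_mul]) P.ap P.dv P.tam P.tor hR
  · have e : 2 ∣ 4 * k := by omega
    rw [mQ_even e] at hT ⊢
    have P := pk_pE (n := 4 * k) ⟨k, rfl, h1, h2.symm⟩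
    rw [hT] at P
    exact posE hF e _ P.c4 (by rw [P.c6, one_mul]) P.ap P.dv P.tam P.tor hR

theorem TT_mQ {A : ℕ} (hA : Ps A) {a b : ℕ} (h3 : t3 (mQ A : ℤ) = a) (h5 : t5 (mQ A : ℤ) = b) :
    TT (mQ A : ℤ) = 4 ^ A.primeFactors.card * (a * b) := by
  unfold TT
  rw [h3, h5, Kd_mQ hA]

theorem Ps_of_Fd {A : ℕ} (h : Fd A) : Ps A := by
  obtain ⟨h1, ⟨h2, h3⟩ | ⟨k, rfl, h2, h3⟩⟩ := h
  · exact Or.inl ⟨h2, h3, h1⟩
  · exact Or.inr ⟨k, rfl, h2, h3⟩

/-- **`3` inert, `5` not split** -/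
theorem cy3 {A : ℕ} (h : Aii A ∨ Aio A) : Cc (EE (mQ A : ℤ)) (CY (-3) A) := by
  rcases h with h | h
  · have a3 : t3 (mQ A : ℤ) = 4 := by
      have := Ps_mod3 h.1
      have := h.2.1
      unfold t3
      rw [if_neg (by omega), if_pos (by omega)]
    have a5 : t5 (mQ A : ℤ) = 2 := by
      have := Ps_mod5 h.1
      have := h.2.2
      unfold t5
      rw [if_neg (by omega), if_neg (by omega)]
    exact cc_ps h.1 (TT_mQ h.1 a3 a5) (relP_ii h)
  · have a3 : t3 (mQ A : ℤ) = 4 := by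
      have := Ps_mod3 h.1
      have := h.2.1
      unfold t3
      rw [if_neg (by omega), if_pos (by omega)]
    have a5 : t5 (mQ A : ℤ) = 1 := by
      have := Ps_mod5 h.1
      have := h.2.2
      unfold t5
      rw [if_pos (by omega)]
    exact cc_ps h.1 (TT_mQ h.1 a3 a5) (relP_io h)

/-- **`3` not inert, `5` split** -/
theorem cy5 {A : ℕ} (h : R15 A ∨ R15r A) : Cc (EE (mQ A : ℤ)) (CY 5 A) := by
  rcases h with h | h
  · have hA := Ps_of_Fd h.1
    have a3 : t3 (mQ A : ℤ) = 2 := by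
      have := Ps_mod3 hA
      have := h.2.1
      unfold t3
      rw [if_neg (by omega), if_neg (by omega)]
    have a5 : t5 (mQ A : ℤ) = 4 := by
      have := Ps_mod5 hA
      have := (jac5 A).1 h.2.2
      unfold t5
      rw [if_neg (by omega), if_pos (by omega)]
    exact cc_ps hA (TT_mQ hA a3 a5) (relP_R15 h)
  · have hA := Ps_of_Fd h.1
    have a3 : t3 (mQ A : ℤ) = 1 := by
      have := Ps_mod3 hA
      have := h.2.1
      unfold t3
      rw [if_pos (by omega)]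
    have a5 : t5 (mQ A : ℤ) = 4 := by
      have := Ps_mod5 hA
      have := (jac5 A).1 h.2.2
      unfold t5
      rw [if_neg (by omega), if_pos (by omega)]
    exact cc_ps hA (TT_mQ hA a3 a5) (relP_R15r h)

/-! ### negative discriminants -/

open Pool.Agent.N974.T15 (RelN negO negE)

/-- `3` and `5` split, from the relation of the sums -/
theorem cc_ng {n : ℕ} (hn : Ng n) (hn4 : n ≠ 4) {T : ℕ} (hT : TT (-(mQ n : ℤ)) = T) {Q : Prop}
    (hO : ¬ 2 ∣ n → RelN n (fun u => jacobiSym u n) T Q)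
    (hE : 2 ∣ n → RelN n (fun u => Pool.Agent.N969.P15.chE n u) T Q) :
    Cc (EE (-(mQ n : ℤ))) Q := by
  rcases hn with ⟨h1, h2⟩ | hEv
  · have ho : ¬ 2 ∣ n := by omega
    rw [mQ_odd ho] at hT ⊢
    have P := pk_nO h1 h2
    rw [hT] at P
    exact negO h1 h2 _ P.c4 (by rw [P.c6]; ring) P.ap P.dv P.tam P.tor (hO ho)
  · have e : 2 ∣ n := by
      obtain ⟨k, rfl, -⟩ := hEv
      omega
    rw [mQ_even e] at hT ⊢
    have P := pk_nE hEv hn4
    rw [hT] at P
    exact negE hEv _ P.c4 (by rw [P.c6]; ring) P.ap P.dv P.tam P.tor (hE e)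

end Pool.Agent.N875.S15
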