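import Pool.Agent.N875.S15.Pack
import Pool.Agent.N875.X15.AsmB

/-!
# The central values: negative discriminants, `3` not inert and `5` not split
-/

set_option autoImplicit false
set_option linter.style.haveILetI false

open scoped Classical

namespace Pool.Agent.N875.S15

open WeierstrassCurve
open Pool.Agent.N875.X15 (WN Em EQm WNQ Fin2 Ao Ae strongO strongE rel_odd rel_even)
open Pool.Agent.Y700 (IsL tamProd Omega)
open Pool.Agent.N218.T15 (EE)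
open Pool.Agent.N973.P15G (Ps Ng QQ)
open Pool.Agent.N875.D15 (mQ mQ_odd mQ_even)

theorem cc_ao {n : ℕ} (h : Ao n) : Cc (EE (-(n : ℤ))) (Pool.Agent.N969.P15.Qc n) := by
  have h4 := h.2.1
  have e : EE (-(n : ℤ)) = WN (-(n : ℤ)) := if_pos (by omega)
  obtain ⟨-, -, -, hΩ, f, w, y, hf, hw0, hw, hyQ, hval⟩ := strongO h (rel_odd h)
  rw [e]
  exact ⟨hΩ, f, w, y, hf, hw0, hw, hyQ, hval⟩

theorem cc_ae {n : ℕ} (h : Ae n) :
    Cc (EE (-((n / 4 : ℕ) : ℤ))) (Pool.Agent.N969.P15.Qe n) := by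
  have e : EE (-((n / 4 : ℕ) : ℤ)) = Em (-((n / 4 : ℕ) : ℤ)) := if_neg (by
    obtain ⟨⟨k, rfl, -, hk⟩, -⟩ := h
    have e4 : 4 * k / 4 = k := by omega
    rw [e4]
    omega)
  obtain ⟨-, -, -, hΩ, f, w, y, hf, hw0, hw, hyQ, hval⟩ := strongE h (rel_even h)
  rw [e]
  exact ⟨hΩ, f, w, y, hf, hw0, hw, hyQ, hval⟩

theorem cc_old {n : ℕ} (hn : Ng n) (c3 : n % 3 ≠ 1) (c5 : n % 5 = 0 ∨ n % 5 = 2 ∨ n % 5 = 3) :
    Cc (EE (-(mQ n : ℤ))) (QQ n) := by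
  rcases hn with ⟨h1, h2⟩ | h1
  · have h2' : ¬ 2 ∣ n := by omega
    rw [mQ_odd h2']
    refine (cc_ao ⟨h1, h2, c3, c5⟩).congr ⟨fun h => Or.inl ⟨h, h2'⟩, ?_⟩
    rintro (⟨h, -⟩ | ⟨-, h⟩)
    · exact h
    · exact absurd h h2'
  · have h2' : 2 ∣ n := by
      obtain ⟨k, rfl, -⟩ := h1
      omega
    rw [mQ_even h2']
    refine (cc_ae ⟨h1, c3, c5⟩).congr ⟨fun h => Or.inr ⟨h, h2'⟩, ?_⟩
    rintro (⟨-, h⟩ | ⟨h, -⟩)
    · exact absurd h2' h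
    · exact h

end Pool.Agent.N875.S15
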