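import Pool.Agent.N875.S15.Ap
import Pool.Agent.N875.S15.Tors
import Pool.Agent.N218.T15.Tam
import Pool.Agent.N974.PG.GnE
import Pool.Agent.N875.D15.Cls2

/-!
# The data of the twists of `X_0(15)` in terms of the discriminant
-/

set_option autoImplicit false
set_option linter.style.haveILetI false

open scoped Classical

namespace Pool.Agent.N875.S15

open WeierstrassCurve
open Pool.Agent.W97.MT (ap)
open Pool.Agent.N974.MF (E15)
open Pool.Agent.N875.X15 (WN Em EQm WNQ Fin2 fin2_N)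
open Pool.Agent.Y700 (IsL tamProd Omega)
open Pool.Agent.N218.T15 (EE t3 t5 min_EE tamProd_EE)
open Pool.Agent.N218.T21 (Kd)
open Pool.Agent.N969.P17G (chP)
open Pool.Agent.N973.P15G (Ps Ng)
open Pool.Agent.N875.D15 (mQ mQ_odd mQ_even)

/-- the data of the curve `W`: `σ n` is the discriminant, `w` the character -/
structure Pk (W : WeierstrassCurve ℤ) (n : ℕ) (σ : ℤ) (w : ℤ → ℤ) (T : ℕ) : Prop where
  c4 : W.c₄ = 481 * (n : ℤ) ^ 2
  c6 : W.c₆ = σ * (4879 * (n : ℤ) ^ 3)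
  ap : ∀ p : ℕ, p.Prime → ap W p = Pool.Agent.W97.MT.ap E15 p * w p
  dv : ∀ p : ℕ, p.Prime → ((p : ℤ) ∣ W.Δ ↔ p ∣ 15 ∨ p ∣ n)
  tor : ∃ t : ℕ, Odd t ∧
    Nat.card (AddCommGroup.torsion (W.map (Int.castRingHom ℚ)).toAffine.Point) = 4 * t
  tam : tamProd W = T

theorem Kd_odd {m : ℤ} (h : m % 4 = 1) : Kd m = m.natAbs := if_pos h

theorem Kd_even {m : ℤ} (h : m % 4 ≠ 1) : Kd m = 4 * m.natAbs := if_neg h

/-- the product of the Tamagawa numbers -/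
def TT (m : ℤ) : ℕ := 4 ^ (Kd m).primeFactors.card * (t3 m * t5 m)

theorem tor_EE {m : ℤ} (hs : Squarefree m) (h1 : m ≠ 1) (h2 : m ≠ -1) : ∃ t : ℕ, Odd t ∧
    Nat.card (AddCommGroup.torsion ((EE m).map (Int.castRingHom ℚ)).toAffine.Point) = 4 * t := by
  by_cases h4 : m % 4 = 1
  · have e : EE m = WN m := if_pos h4
    rw [e]
    exact tors_WN h4 hs h1
  · have e : EE m = Em m := if_neg h4
    rw [e]
    exact tors_Em hs h1 h2

theorem fin2_EE {m : ℤ} (hs : Squarefree m) :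
    Fin2 ((EE m).map (Int.castRingHom ℚ)) ↔ Fin2 (EQm m) := by
  by_cases h4 : m % 4 = 1
  · have e : EE m = WN m := if_pos h4
    rw [e]
    exact fin2_N h4
  · have e : EE m = Em m := if_neg h4
    rw [e]

/-- odd positive discriminants -/
theorem pk_pO {n : ℕ} (hs : Squarefree n) (h4 : n % 4 = 1) (h1 : 1 < n) :
    Pk (EE (n : ℤ)) n 1 (fun u => jacobiSym u n) (TT (n : ℤ)) := by
  have h4' : (n : ℤ) % 4 = 1 := by omega
  have hs' : Squarefree (n : ℤ) := Int.squarefree_natCast.2 hs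
  have e : EE (n : ℤ) = WN (n : ℤ) := if_pos h4'
  refine ⟨?_, ?_, fun p hp => ?_, fun p hp => ?_, tor_EE hs' (by omega) (by omega), tamProd_EE hs'⟩
  · rw [e, c4_WN h4']
  · rw [e, c6_WN h4', one_mul]
  · rw [e, ap_WN h4' p hp, Int.natAbs_natCast]
  · rw [e, dvd_Δ (WN_Δ' h4') hp, Int.natCast_dvd_natCast]

/-- odd negative discriminants -/
theorem pk_nO {n : ℕ} (hs : Squarefree n) (h4 : n % 4 = 3) :
    Pk (EE (-(n : ℤ))) n (-1) (fun u => jacobiSym u n) (TT (-(n : ℤ))) := by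
  have h4' : -(n : ℤ) % 4 = 1 := by omega
  have hs' : Squarefree (-(n : ℤ)) := by
    intro x hx
    rw [dvd_neg] at hx
    exact Int.squarefree_natCast.2 hs x hx
  have e : EE (-(n : ℤ)) = WN (-(n : ℤ)) := if_pos h4'
  refine ⟨?_, ?_, fun p hp => ?_, fun p hp => ?_, tor_EE hs' (by omega) (by omega), tamProd_EE hs'⟩
  · rw [e, c4_WN h4']
    ring
  · rw [e, c6_WN h4']
    ring
  · rw [e, ap_WN h4' p hp, Int.natAbs_neg, Int.natAbs_natCast]
  · rw [e, dvd_Δ (WN_Δ' h4') hp, dvd_neg, Int.natCast_dvd_natCast]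

/-- even positive discriminants -/
theorem pk_pE {n : ℕ} (hE : Pool.Agent.N974.Gen.ChP.Ev n) :
    Pk (EE ((n / 4 : ℕ) : ℤ)) n 1 (fun u => chP n u) (TT ((n / 4 : ℕ) : ℤ)) := by
  obtain ⟨k, rfl, hk, hk4⟩ := id hE
  have e4 : 4 * k / 4 = k := by omega
  have h4' : ((4 * k / 4 : ℕ) : ℤ) % 4 ≠ 1 := by rw [e4]; omega
  have hs' : Squarefree ((4 * k / 4 : ℕ) : ℤ) := by
    rw [e4]
    exact Int.squarefree_natCast.2 hk
  have e : EE ((4 * k / 4 : ℕ) : ℤ) = Em ((4 * k / 4 : ℕ) : ℤ) := if_neg h4'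
  refine ⟨?_, ?_, fun p hp => ?_, fun p hp => ?_,
    tor_EE hs' (by rw [e4]; omega) (by rw [e4]; omega), tamProd_EE hs'⟩
  · rw [e, Pool.Agent.N875.X15.c4_Em, e4]
    push_cast
    ring
  · rw [e, Pool.Agent.N875.X15.c6_Em, e4]
    push_cast
    ring
  · rw [e, ap_Ep hE p hp, Pool.Agent.N974.PG.chP_eq hE]
  · rw [e, dvd_Δ (Em_Δ' _) hp, e4]
    have : (4 * (k : ℤ)) = ((4 * k : ℕ) : ℤ) := by push_cast; ring
    rw [this, Int.natCast_dvd_natCast]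

/-- even negative discriminants -/
theorem pk_nE {n : ℕ} (hE : Pool.Agent.N969.P15.Ev n) (hn : n ≠ 4) :
    Pk (EE (-((n / 4 : ℕ) : ℤ))) n (-1) (fun u => Pool.Agent.N969.P15.chE n u)
      (TT (-((n / 4 : ℕ) : ℤ))) := by
  obtain ⟨k, rfl, hk, hk4⟩ := id hE
  have e4 : 4 * k / 4 = k := by omega
  have h4' : -((4 * k / 4 : ℕ) : ℤ) % 4 ≠ 1 := by rw [e4]; omega
  have hs' : Squarefree (-((4 * k / 4 : ℕ) : ℤ)) := by
    rw [e4]
    intro x hx
    rw [dvd_neg] at hx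
    exact Int.squarefree_natCast.2 hk x hx
  have e : EE (-((4 * k / 4 : ℕ) : ℤ)) = Em (-((4 * k / 4 : ℕ) : ℤ)) := if_neg h4'
  refine ⟨?_, ?_, fun p hp => ?_, fun p hp => ?_,
    tor_EE hs' (by rw [e4]; omega) (by rw [e4]; omega), tamProd_EE hs'⟩
  · rw [e, Pool.Agent.N875.X15.c4_Em, e4]
    push_cast
    ring
  · rw [e, Pool.Agent.N875.X15.c6_Em, e4]
    push_cast
    ring
  · rw [e, ap_En hE p hp]
  · rw [e, dvd_Δ (Em_Δ' _) hp, e4]
    have : (4 * -(k : ℤ)) = -((4 * k : ℕ) : ℤ) := by push_cast; ring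
    rw [this, dvd_neg, Int.natCast_dvd_natCast]

/-- the statement about the central value -/
def Cc (W : WeierstrassCurve ℤ) (Q : Prop) : Prop := 0 < Omega W ∧
    ∃ (f : ℂ → ℂ) (v : ℚ) (y : ℤ), IsL W f ∧ v ≠ 0 ∧ padicValRat 2 v = 0 ∧ (Odd y ↔ Q) ∧
      f 1 = (((v : ℝ) * (y : ℝ) ^ 2 * (Omega W * tamProd W /
        (Nat.card (AddCommGroup.torsion (W.map (Int.castRingHom ℚ)).toAffine.Point) : ℝ) ^ 2) : ℝ) :
          ℂ)

theorem Cc.congr {W : WeierstrassCurve ℤ} {Q Q' : Prop} (h : Cc W Q) (e : Q ↔ Q') : Cc W Q' := by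
  obtain ⟨h1, f, v, y, h2, h3, h4, h5, h6⟩ := h
  exact ⟨h1, f, v, y, h2, h3, h4, h5.trans e, h6⟩

theorem Cc.zero {W : WeierstrassCurve ℤ} {Q : Prop}
    (h : 0 < Omega W ∧ ∃ f : ℂ → ℂ, IsL W f ∧ f 1 = 0) (hQ : ¬ Q) : Cc W Q := by
  obtain ⟨h1, f, h2, h3⟩ := h
  refine ⟨h1, f, 1, 0, h2, one_ne_zero, by simp, ⟨fun h => absurd h (by decide),
    fun h => absurd h hQ⟩, ?_⟩
  rw [h3]
  norm_num

end Pool.Agent.N875.S15
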